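import Pool.Agent.Helper82.BR.St3
import Pool.Agent.Helper8.BR.M_FA

/-! MP_514f88_co, project BR8, module N4: some circle around a point of the set has four points. -/

set_option autoImplicit false

namespace Pool.Agent.Helper31.BR

open Pool.Agent.Helper82.BR

theorem hN4 : StN4 := by
  classical
  intro S hR h8
  by_contra hcon
  push Not at hcon
  have h3 : ∀ c ∈ S, ∀ r : ℝ, 0 < r → (S.filter (fun s => dist s c = r)).card ≤ 3 := by
    intro c hc r hr
    have h1 := hcon c hc r hr
    have h2 : (S.filter (fun s => dist s c = r)).card < 4 := by convert h1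
    omega
  have hF := Pool.Agent.Helper8.BR.hFA S hR h3
  obtain ⟨c, hc⟩ : S.Nonempty := by
    rw [← Finset.card_pos]
    omega
  have h7 : (S.erase c).card = 7 := by
    rw [Finset.card_erase_of_mem hc, h8]
  have hsum := Finset.card_eq_sum_card_image (fun s : ℂ => dist s c) (S.erase c)
  have hfib : ∀ r ∈ (S.erase c).image (fun s : ℂ => dist s c),
      ((S.erase c).filter (fun s => dist s c = r)).card = 3 := by
    intro r hr
    obtain ⟨p, hp, rfl⟩ := Finset.mem_image.1 hr
    have hpc := Finset.ne_of_mem_erase hp
    have hpS := Finset.mem_of_mem_erase hp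
    have h1 := hF c hc p hpS hpc
    have e : (S.erase c).filter (fun s => dist s c = dist p c) =
        S.filter (fun s => dist s c = dist p c) := by
      ext s
      simp only [Finset.mem_filter, Finset.mem_erase]
      constructor
      · rintro ⟨⟨-, h2⟩, h4⟩
        exact ⟨h2, h4⟩
      · rintro ⟨h2, h4⟩
        refine ⟨⟨?_, h2⟩, h4⟩
        rintro rfl
        rw [dist_self] at h4
        exact hpc (dist_eq_zero.1 h4.symm)
    show ((S.erase c).filter (fun s => dist s c = dist p c)).card = 3
    rw [e]
    convert h1
  rw [Finset.sum_congr rfl hfib, Finset.sum_const, smul_eq_mul, h7] at hsum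
  omega

end Pool.Agent.Helper31.BR
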